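import Pool.Agent.N874.PP.Lat
import Pool.Agent.TH115.SK.Defs

/-!
# Statements of the Galois-theoretic parts

Project PP (helper874). `Pt W Ω`, `act`, `rs`, `IsCoc`, `LocTriv`, `Comp`, `Sep`, `ShaTwo` are those
of `Pool.Agent.TH115.GD` (files `TH115/GD/Defs.lean`, `TH115/SK/Defs.lean`).
-/

set_option autoImplicit false
set_option linter.all false

open Polynomial IsDedekindDomain WeierstrassCurve WeierstrassCurve.Affine
open Pool.Agent.TH115.GD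
open scoped Classical

namespace Pool.Agent.N874.PP

/-- The curve `y ^ 2 = x ^ 3 + A x + B`. -/
def sW {K : Type} [Field K] (A B : K) : WeierstrassCurve K := ⟨0, 0, 0, A, B⟩

section pts

variable {K Ω : Type} [Field K] [Field Ω] [Algebra K Ω] {A B : K}

/-- `t` is a zero of `X ^ 3 + A X + B`. -/
def Rt (A B : K) (t : Ω) : Prop := t ^ 3 + algebraMap K Ω A * t + algebraMap K Ω B = 0

/-- The Weil pairing of the point `T` of order two with the point `(t, 0)`. -/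
noncomputable def sg (T : Pt (sW A B) Ω) (t : Ω) : Ω :=
  if T = 0 ∨ ∃ h, T = Point.some t 0 h then 1 else -1

/-- The square root of `x(2 R) - t`. -/
noncomputable def rr (t : Ω) : Pt (sW A B) Ω → Ω
  | .zero => 0
  | .some x y _ => ((x - t) ^ 2 - (3 * t ^ 2 + algebraMap K Ω A)) / (2 * y)

end pts

/-- `x(2 R) - t` is the square of `rr t R`. -/
def S_GP1 : Prop := ∀ (K Ω : Type) [Field K] [Field Ω] [Algebra K Ω] (A B : K), (6 : K) ≠ 0 →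
  4 * A ^ 3 + 27 * B ^ 2 ≠ 0 → ∀ R : Pt (sW A B) Ω, (2 : ℕ) • R ≠ 0 →
  ∃ x y h, (2 : ℕ) • R = Point.some x y h ∧ ∀ t : Ω, Rt A B t → rr t R ^ 2 = x - t

/-- Translation by points of order two. -/
def S_GP2 : Prop := ∀ (K Ω : Type) [Field K] [Field Ω] [Algebra K Ω] (A B : K), (6 : K) ≠ 0 →
  4 * A ^ 3 + 27 * B ^ 2 ≠ 0 → ∀ R T : Pt (sW A B) Ω, (2 : ℕ) • R ≠ 0 → (2 : ℕ) • T = 0 →
  ∀ t : Ω, Rt A B t → rr t (R + T) = sg T t * rr t R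

/-- Properties of the pairing. -/
def S_GP3 : Prop := ∀ (K Ω : Type) [Field K] [Field Ω] [Algebra K Ω] (A B : K), (6 : K) ≠ 0 →
  4 * A ^ 3 + 27 * B ^ 2 ≠ 0 → ∀ t₁ t₂ t₃ : Ω, Rt A B t₁ → Rt A B t₂ → Rt A B t₃ → t₁ ≠ t₂ →
  t₁ ≠ t₃ → t₂ ≠ t₃ →
  (∀ T : Pt (sW A B) Ω, (2 : ℕ) • T = 0 → sg T t₁ * sg T t₂ * sg T t₃ = 1) ∧
  (∀ (T T' : Pt (sW A B) Ω) (t : Ω), (2 : ℕ) • T = 0 → (2 : ℕ) • T' = 0 → Rt A B t →
    sg (T + T') t = sg T t * sg T' t) ∧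
  (∀ T : Pt (sW A B) Ω, (2 : ℕ) • T = 0 → sg T t₁ = 1 → sg T t₂ = 1 → sg T t₃ = 1 → T = 0) ∧
  (∀ ε₁ ε₂ ε₃ : Ω, (ε₁ = 1 ∨ ε₁ = -1) → (ε₂ = 1 ∨ ε₂ = -1) → (ε₃ = 1 ∨ ε₃ = -1) →
    ε₁ * ε₂ * ε₃ = 1 → ∃ T : Pt (sW A B) Ω, (2 : ℕ) • T = 0 ∧ sg T t₁ = ε₁ ∧ sg T t₂ = ε₂ ∧
      sg T t₃ = ε₃)

/-- Functoriality. -/
def S_GP4 : Prop := ∀ (K Ω Ω' : Type) [Field K] [Field Ω] [Algebra K Ω] [Field Ω'] [Algebra K Ω']
  (A B : K) (φ : Ω →ₐ[K] Ω') (T : Pt (sW A B) Ω) (t : Ω),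
  sg (act (sW A B) φ T) (φ t) = φ (sg T t) ∧ rr (φ t) (act (sW A B) φ T) = φ (rr t T)

/-- `β` describes the class of the cocycle `f`. -/
def IsBeta {K : Type} [Field K] (A B : K) (f : (Sep K ≃ₐ[K] Sep K) → Pt (sW A B) (Sep K))
    (β : Sep K → Sep K) : Prop :=
  ∀ t : Sep K, Rt A B t → β t ≠ 0 ∧ ∀ σ : Sep K ≃ₐ[K] Sep K, σ (β t) = sg (f σ) (σ t) * β (σ t)

/-- Hilbert 90. -/
def S_GB : Prop := ∀ (K : Type) [Field K] (A B : K), (6 : K) ≠ 0 → 4 * A ^ 3 + 27 * B ^ 2 ≠ 0 →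
  Irreducible (X ^ 3 + C A * X + C B : K[X]) →
  ∀ f : (Sep K ≃ₐ[K] Sep K) → Pt (sW A B) (Sep K), IsCoc (sW A B) f → (∀ σ, (2 : ℕ) • f σ = 0) →
  ∃ β : Sep K → Sep K, IsBeta A B f β

/-- The polynomial `h` with `h(t) = β(t) ^ 2`, and the norm. -/
def S_GN : Prop := ∀ (K : Type) [Field K] (A B : K), (6 : K) ≠ 0 → 4 * A ^ 3 + 27 * B ^ 2 ≠ 0 →
  Irreducible (X ^ 3 + C A * X + C B : K[X]) →
  ∀ f : (Sep K ≃ₐ[K] Sep K) → Pt (sW A B) (Sep K), IsCoc (sW A B) f → (∀ σ, (2 : ℕ) • f σ = 0) →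
  ∀ β : Sep K → Sep K, IsBeta A B f β → ∃ h : K[X], (∀ t : Sep K, Rt A B t → aeval t h = β t ^ 2) ∧
    (∀ (L : Type) [Field L] [Algebra K L] (t : L), Rt A B t → Module.finrank K L = 3 →
      aeval t h ≠ 0 ∧ IsSquare (Algebra.norm K (aeval t h)))

/-- If the class of `h` is trivial then the cocycle is. -/
def S_GT : Prop := ∀ (K : Type) [Field K] (A B : K), (6 : K) ≠ 0 → 4 * A ^ 3 + 27 * B ^ 2 ≠ 0 →
  Irreducible (X ^ 3 + C A * X + C B : K[X]) →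
  ∀ f : (Sep K ≃ₐ[K] Sep K) → Pt (sW A B) (Sep K), IsCoc (sW A B) f → (∀ σ, (2 : ℕ) • f σ = 0) →
  ∀ (β : Sep K → Sep K) (h : K[X]), IsBeta A B f β →
    (∀ t : Sep K, Rt A B t → aeval t h = β t ^ 2) →
    ∀ (L : Type) [Field L] [Algebra K L] (t : L), Rt A B t → Module.finrank K L = 3 →
      IsSquare (aeval t h) →
      ∃ T : Pt (sW A B) (Sep K), (2 : ℕ) • T = 0 ∧ ∀ σ, f σ = act (sW A B) (rs K σ) T - T

/-- The local condition. -/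
def S_GL : Prop := ∀ (k K : Type) [Field k] [Field K] [Algebra k[X] K] [IsFractionRing k[X] K]
  (A B : k[X]), (6 : k) ≠ 0 → 4 * A ^ 3 + 27 * B ^ 2 ≠ 0 →
  ∀ f : (Sep K ≃ₐ[K] Sep K) → Pt (sW (algebraMap k[X] K A) (algebraMap k[X] K B)) (Sep K),
  IsCoc (sW (algebraMap k[X] K A) (algebraMap k[X] K B)) f → (∀ σ, (2 : ℕ) • f σ = 0) →
  ∀ (β : Sep K → Sep K) (h : K[X]), IsBeta (algebraMap k[X] K A) (algebraMap k[X] K B) f β →
    (∀ t : Sep K, Rt (algebraMap k[X] K A) (algebraMap k[X] K B) t → aeval t h = β t ^ 2) →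
    ∀ v : HeightOneSpectrum k[X],
      LocTriv (sW (algebraMap k[X] K A) (algebraMap k[X] K B)) (Comp k[X] K v)
        (Sep (Comp k[X] K v)) f → PolyLoc v A B h

/-- The 2-Selmer group is zero: cocycles with values in `W[2]` which are locally trivial in `W` at
all the finite places are coboundaries of points of order two. -/
def SelZero {k K : Type} [Field k] [Field K] [Algebra k[X] K] [IsFractionRing k[X] K]
    (W : WeierstrassCurve K) : Prop :=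
  ∀ f : (Sep K ≃ₐ[K] Sep K) → Pt W (Sep K), IsCoc W f → (∀ σ, (2 : ℕ) • f σ = 0) →
    (∀ v : HeightOneSpectrum k[X], LocTriv W (Comp k[X] K v) (Sep (Comp k[X] K v)) f) →
    ∃ T : Pt W (Sep K), (2 : ℕ) • T = 0 ∧ ∀ σ, f σ = act W (rs K σ) T - T

/-- Consequences of `SelZero`. -/
def S_GF : Prop := ∀ (k K : Type) [Field k] [Field K] [Algebra k[X] K] [IsFractionRing k[X] K]
  (A B : K), (6 : k) ≠ 0 → 4 * A ^ 3 + 27 * B ^ 2 ≠ 0 → SelZero (k := k) (sW A B) →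
  (∀ P : Pt (sW A B) K, ∃ Q : Pt (sW A B) K, P = (2 : ℕ) • Q) ∧ ShaTwo k (sW A B)

/-- Finiteness from divisibility by two. -/
def S_FIN : Prop := ∀ (k K : Type) [Field k] [Finite k] [Field K] [Algebra k[X] K]
  [IsFractionRing k[X] K] (A B : k[X]), (6 : k) ≠ 0 → 4 * A ^ 3 + 27 * B ^ 2 ≠ 0 →
  (∀ P : Pt (sW (algebraMap k[X] K A) (algebraMap k[X] K B)) K,
    ∃ Q : Pt (sW (algebraMap k[X] K A) (algebraMap k[X] K B)) K, P = (2 : ℕ) • Q) →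
  Finite (Pt (sW (algebraMap k[X] K A) (algebraMap k[X] K B)) K)

end Pool.Agent.N874.PP
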