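import Pool.Agent.N874.PP.Def

/-!
# Statements of the parts on the cubic field (lattices, local conditions, reciprocity)

Project PP (helper874). Mathlib only. In all of them `K` is the field of fractions of `k[X]`,
`L = K(θ)`, `θ ^ 3 + a θ + b = 0`, `O` the integral closure of `k[X]` in `L`.
-/

set_option autoImplicit false
set_option linter.all false

open Polynomial IsDedekindDomain Matrix
open scoped Classical

namespace Pool.Agent.N874.PP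

section defs

variable {k L : Type} [Field k] [Field L] [Algebra k[X] L]

/-- `x = r + s θ + t θ ^ 2` with polynomials `r`, `s`, `t`. -/
def Crd (θ : L) (v : Fin 3 → k[X]) (x : L) : Prop :=
  x = algebraMap k[X] L (v 0) + algebraMap k[X] L (v 1) * θ + algebraMap k[X] L (v 2) * θ ^ 2

/-- `e` is a basis of a lattice `I` with `I = {y | y I ⊆ α O}`. -/
structure SD (k : Type) {L : Type} [Field k] [Field L] [Algebra k[X] L] (K : Type) [Field K]
    [Algebra K L] (e : Fin 3 → L) (α : L) : Prop where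
  li : LinearIndependent K e
  int : ∀ i j, IsIntegral k[X] (e i * e j / α)
  dual : ∀ y : L, (∀ i, IsIntegral k[X] (e i * y / α)) →
    ∃ c : Fin 3 → k[X], y = ∑ i, algebraMap k[X] L (c i) * e i

/-- Two vectors of the lattice, independent modulo `Q`, with `x ^ 2 / α` in `k[X] + Q O`. -/
def TTV (Q : k[X]) (θ : L) (e : Fin 3 → L) (α : L) : Prop :=
  ∃ ξ ξ' : Fin 3 → k[X], (∃ i j, ¬ Q ∣ ξ i * ξ' j - ξ j * ξ' i) ∧
    (∃ v : Fin 3 → k[X], Q ∣ v 1 ∧ Q ∣ v 2 ∧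
      Crd θ v ((∑ i, algebraMap k[X] L (ξ i) * e i) ^ 2 / α)) ∧
    (∃ v : Fin 3 → k[X], Q ∣ v 1 ∧ Q ∣ v 2 ∧
      Crd θ v ((∑ i, algebraMap k[X] L (ξ' i) * e i) ^ 2 / α))

/-- The weight of a vector of polynomials: the maximum of `deg (v j) + d j`, `v j ≠ 0`. -/
noncomputable def wt (d : Fin 3 → ℕ) (v : Fin 3 → k[X]) : ℕ :=
  Finset.univ.sup fun j => if v j = 0 then 0 else (v j).natDegree + d j

end defs

/-- The cubic polynomial of the twist by `D` is irreducible over `K`. -/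
def S_IRK : Prop := ∀ (k K : Type) [Field k] [Field K] [Algebra k[X] K] [IsFractionRing k[X] K]
  (a b : k[X]) (N : ℕ), a.natDegree ≤ 4 * N → b.natDegree ≤ 6 * N →
  Irreducible (X ^ 3 + C (a.coeff (4 * N)) * X + C (b.coeff (6 * N)) : k[X]) →
  ∀ D : k[X], D ≠ 0 →
  Irreducible (X ^ 3 + C (algebraMap k[X] K (a * D ^ 2)) * X +
    C (algebraMap k[X] K (b * D ^ 3)) : K[X])

/-! ### Lattices -/

/-- The ring of integers is `k[X][θ]` (the discriminant is squarefree). -/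
def S_INT : Prop := ∀ (k K L : Type) [Field k] [Field K] [Algebra k[X] K] [IsFractionRing k[X] K]
  [Field L] [Algebra K L] [Algebra k[X] L] [IsScalarTower k[X] K L] (a b : k[X]) (θ : L),
  (6 : k) ≠ 0 → IsCub K a b θ → Squarefree (dsc a b) →
  ∀ x : L, IsIntegral k[X] x ↔ ∃ v : Fin 3 → k[X], Crd θ v x

/-- The lattice `I` with `I ^ 2 = α O`. -/
def S_SD : Prop := ∀ (k K L O : Type) [Field k] [Field K] [Algebra k[X] K] [IsFractionRing k[X] K]
  [Field L] [Algebra K L] [Algebra k[X] L] [IsScalarTower k[X] K L] [CommRing O]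
  [IsDedekindDomain O] [Algebra O L] [IsFractionRing O L] [Algebra k[X] O]
  [IsScalarTower k[X] O L] [IsIntegralClosure O k[X] L] (a b : k[X]) (θ : L),
  (6 : k) ≠ 0 → IsCub K a b θ → Squarefree (dsc a b) →
  ∀ α : L, α ≠ 0 → (∀ 𝔓 : HeightOneSpectrum O, Ev 𝔓 α) → ∃ e : Fin 3 → L, SD k K e α

/-- Local squares give common isotropic vectors modulo `Q`. -/
def S_TTV : Prop := ∀ (k K L O : Type) [Field k] [Field K] [Algebra k[X] K] [IsFractionRing k[X] K]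
  [Field L] [Algebra K L] [Algebra k[X] L] [IsScalarTower k[X] K L] [CommRing O]
  [IsDedekindDomain O] [Algebra O L] [IsFractionRing O L] [Algebra k[X] O]
  [IsScalarTower k[X] O L] [IsIntegralClosure O k[X] L] (a b : k[X]) (θ : L),
  (6 : k) ≠ 0 → IsCub K a b θ → Squarefree (dsc a b) →
  ∀ (α : L) (e : Fin 3 → L), α ≠ 0 → SD k K e α → ∀ Q : k[X], Irreducible Q → Q ∣ b →
    (∀ z : k[X], ¬ Q ∣ z ^ 2 + a) → (∀ 𝔓 : HeightOneSpectrum O, Ov Q 𝔓 → Sq1 𝔓 α) →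
    TTV Q θ e α

/-- Reduction of a lattice over `k[X]`. -/
def S_RED : Prop := ∀ (k : Type) [Field k] (d : Fin 3 → ℕ) (E : Matrix (Fin 3) (Fin 3) k[X]),
  E.det ≠ 0 → ∃ U : Matrix (Fin 3) (Fin 3) k[X], IsUnit U.det ∧
    Monotone (fun i => wt d ((U * E) i)) ∧
    ∑ i, wt d ((U * E) i) = E.det.natDegree + ∑ j, d j

/-- The weight is multiplicative: the place at infinity is inert. -/
def S_WT : Prop := ∀ (k L : Type) [Field k] [Field L] [Algebra k[X] L] (K : Type) [Field K]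
  [Algebra K L] [Algebra k[X] K] [IsFractionRing k[X] K] [IsScalarTower k[X] K L]
  (a b : k[X]) (θ : L) (N : ℕ), IsCub K a b θ → a.natDegree ≤ 4 * N → b.natDegree ≤ 6 * N →
  Irreducible (X ^ 3 + C (a.coeff (4 * N)) * X + C (b.coeff (6 * N)) : k[X]) →
  ∀ (x y : L) (u v w : Fin 3 → k[X]), x ≠ 0 → y ≠ 0 → Crd θ u x → Crd θ v y → Crd θ w (x * y) →
    wt ![0, 2 * N, 4 * N] w = wt ![0, 2 * N, 4 * N] u + wt ![0, 2 * N, 4 * N] v

/-- The degree of the norm. -/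
def S_NW : Prop := ∀ (k L : Type) [Field k] [Field L] [Algebra k[X] L] (K : Type) [Field K]
  [Algebra K L] [Algebra k[X] K] [IsFractionRing k[X] K] [IsScalarTower k[X] K L]
  (a b : k[X]) (θ : L) (N : ℕ), IsCub K a b θ → a.natDegree ≤ 4 * N → b.natDegree ≤ 6 * N →
  Irreducible (X ^ 3 + C (a.coeff (4 * N)) * X + C (b.coeff (6 * N)) : k[X]) →
  ∀ (x : L) (u : Fin 3 → k[X]) (n : k[X]), x ≠ 0 → Crd θ u x →
    algebraMap k[X] K n = Algebra.norm K x → n.natDegree = 3 * wt ![0, 2 * N, 4 * N] u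

/-- The normal form of a unimodular ternary lattice over the projective line. -/
def S_NRM : Prop := ∀ (k : Type) [Field k] [Finite k], (2 : k) ≠ 0 →
  ∀ (G : Matrix (Fin 3) (Fin 3) k[X]) (w : Fin 3 → ℤ) (κ : k), G.IsSymm → κ ≠ 0 →
  G.det = - C (κ ^ 2) → Monotone w → ∑ i, w i = 0 →
  (∀ i j, G i j = 0 ∨ ((G i j).natDegree : ℤ) ≤ w i + w j) →
  ∃ (m : ℕ) (U : Matrix (Fin 3) (Fin 3) k[X]), IsUnit U.det ∧
    U * G * Uᵀ = !![0, 0, 1; 0, 1, 0; 1, 0, 0] ∧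
    ∀ i j, U i j = 0 ∨ ((U i j).natDegree : ℤ) ≤ ![-(m : ℤ), 0, (m : ℤ)] i - w j

/-- The characteristic polynomial of multiplication by `θ` in a normalised basis. -/
def S_CHI : Prop := ∀ (k K L : Type) [Field k] [Field K] [Algebra k[X] K] [IsFractionRing k[X] K]
  [Field L] [Algebra K L] [Algebra k[X] L] [IsScalarTower k[X] K L] (a b : k[X]) (θ : L),
  (6 : k) ≠ 0 → ∀ h : IsCub K a b θ, ∀ (α : L) (e : Fin 3 → L), α ≠ 0 → LinearIndependent K e →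
  (∀ i j, h.co 2 (e i * e j / α) = (!![0, 0, 1; 0, 1, 0; 1, 0, 0] : Matrix (Fin 3) (Fin 3) K) i j) →
  ∀ B : Fin 3 → Fin 3 → K, (∀ i j, h.co 1 (e i * e j / α) = B i j) →
    B 1 1 = -2 * B 0 2 ∧
    chA (⟨B 0 0, B 0 1, B 0 2, B 1 2, B 2 2⟩ : Tup K) = algebraMap k[X] K a ∧
    chB (⟨B 0 0, B 0 1, B 0 2, B 1 2, B 2 2⟩ : Tup K) = algebraMap k[X] K b

/-- From the lattice to the tuple. -/
def S_LB : Prop := ∀ (k K L : Type) [Field k] [Finite k] [Field K] [Algebra k[X] K]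
  [IsFractionRing k[X] K] [Field L] [Algebra K L] [Algebra k[X] L] [IsScalarTower k[X] K L]
  (a b : k[X]) (θ : L) (N : ℕ) (S : Finset k[X]) (s : k[X] → k[X]) (a₀ b₀ : k),
  (6 : k) ≠ 0 → IsCub K a b θ → Irreducible (X ^ 3 + C a₀ * X + C b₀ : k[X]) → GoodS S s →
  Fam N a₀ b₀ S s a b → ∀ (α : L) (e : Fin 3 → L), α ≠ 0 → IsSquare (Algebra.norm K α) →
  ¬ IsSquare α → SD k K e α → (∀ Q ∈ S, TTV Q θ e α) → LBad N S s a b

/-! ### Primes of `O`, classes -/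

/-- The two primes over `Q`. -/
def S_EXQ : Prop := ∀ (k K L O : Type) [Field k] [Field K] [Algebra k[X] K] [IsFractionRing k[X] K]
  [Field L] [Algebra K L] [Algebra k[X] L] [IsScalarTower k[X] K L] [CommRing O]
  [IsDedekindDomain O] [Algebra O L] [IsFractionRing O L] [Algebra k[X] O]
  [IsScalarTower k[X] O L] [IsIntegralClosure O k[X] L] (a b : k[X]) (θ : L),
  (6 : k) ≠ 0 → IsCub K a b θ → Squarefree (dsc a b) →
  ∀ Q : k[X], Irreducible Q → Q ∣ b → (∀ z : k[X], ¬ Q ∣ z ^ 2 + a) →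
  ∃ 𝔓₁ 𝔮 : HeightOneSpectrum O, Ov Q 𝔓₁ ∧ Ov Q 𝔮 ∧ 𝔓₁.valuation L θ < 1 ∧ 𝔮.valuation L θ = 1 ∧
    ¬ Ev 𝔮 (algebraMap k[X] L Q * θ) ∧
    ∀ 𝔓 : HeightOneSpectrum O, Ov Q 𝔓 → 𝔓 = 𝔓₁ ∨ 𝔓 = 𝔮

/-- Classes at a prime with finite residue field of odd characteristic form a group of order
four. -/
def S_CLS : Prop := ∀ (k L O : Type) [Field k] [Finite k] [Field L] [Algebra k[X] L] [CommRing O]
  [IsDedekindDomain O] [Algebra O L] [IsFractionRing O L] [Algebra k[X] O]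
  [IsScalarTower k[X] O L] [Algebra.IsIntegral k[X] O] [Module.Finite k[X] O]
  (Q : k[X]) (𝔓 : HeightOneSpectrum O) (ϖ : L),
  (2 : k) ≠ 0 → Irreducible Q → Ov Q 𝔓 → ϖ ≠ 0 → ¬ Ev 𝔓 ϖ → ∀ x y : L, x ≠ 0 → y ≠ 0 →
    (Ev 𝔓 (x * y) ↔ (Ev 𝔓 x ↔ Ev 𝔓 y)) ∧ (U0 𝔓 ϖ (x * y) ↔ (U0 𝔓 ϖ x ↔ U0 𝔓 ϖ y))

/-- The parity at a prime of degree one from the norm. -/
def S_PAR : Prop := ∀ (k K L O : Type) [Field k] [Field K] [Algebra k[X] K] [IsFractionRing k[X] K]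
  [Field L] [Algebra K L] [Algebra k[X] L] [IsScalarTower k[X] K L] [CommRing O]
  [IsDedekindDomain O] [Algebra O L] [IsFractionRing O L] [Algebra k[X] O]
  [IsScalarTower k[X] O L] [IsIntegralClosure O k[X] L] (a b : k[X]) (θ : L),
  (6 : k) ≠ 0 → IsCub K a b θ → Squarefree (dsc a b) →
  ∀ P : k[X], Irreducible P → ∀ (𝔓₀ : HeightOneSpectrum O) (c : k[X]), Ov P 𝔓₀ →
    𝔓₀.valuation L (θ - algebraMap k[X] L c) < 1 → ∀ x : L, x ≠ 0 → IsSquare (Algebra.norm K x) →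
    (∀ 𝔓 : HeightOneSpectrum O, Ov P 𝔓 → 𝔓 ≠ 𝔓₀ → Ev 𝔓 x) → Ev 𝔓₀ x

/-- The parity at the prime of degree one over `Q` from the norm (the other prime over `Q` has
degree two). -/
def S_PARQ : Prop := ∀ (k K L O : Type) [Field k] [Field K] [Algebra k[X] K]
  [IsFractionRing k[X] K]
  [Field L] [Algebra K L] [Algebra k[X] L] [IsScalarTower k[X] K L] [CommRing O]
  [IsDedekindDomain O] [Algebra O L] [IsFractionRing O L] [Algebra k[X] O]
  [IsScalarTower k[X] O L] [IsIntegralClosure O k[X] L] (a b : k[X]) (θ : L),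
  (6 : k) ≠ 0 → IsCub K a b θ → Squarefree (dsc a b) →
  ∀ Q : k[X], Irreducible Q → Q ∣ b → (∀ z : k[X], ¬ Q ∣ z ^ 2 + a) →
  ∀ x : L, x ≠ 0 → IsSquare (Algebra.norm K x) →
    ∀ 𝔓 : HeightOneSpectrum O, Ov Q 𝔓 → 𝔓.valuation L θ < 1 → Ev 𝔓 x

/-- The square class at the prime of degree one over `Q` from the norm. -/
def S_NS : Prop := ∀ (k K L O : Type) [Field k] [Finite k] [Field K] [Algebra k[X] K]
  [IsFractionRing k[X] K]
  [Field L] [Algebra K L] [Algebra k[X] L] [IsScalarTower k[X] K L] [CommRing O]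
  [IsDedekindDomain O] [Algebra O L] [IsFractionRing O L] [Algebra k[X] O]
  [IsScalarTower k[X] O L] [IsIntegralClosure O k[X] L] (a b : k[X]) (θ : L),
  (6 : k) ≠ 0 → IsCub K a b θ → Squarefree (dsc a b) →
  ∀ Q : k[X], Irreducible Q → Q ∣ b → (∀ z : k[X], ¬ Q ∣ z ^ 2 + a) →
  ∀ x : L, x ≠ 0 → IsSquare (Algebra.norm K x) →
    (∀ 𝔓 : HeightOneSpectrum O, Ov Q 𝔓 → 𝔓.valuation L θ < 1 → Ev 𝔓 x) →
    (∀ 𝔓 : HeightOneSpectrum O, Ov Q 𝔓 → 𝔓.valuation L θ = 1 → Sq1 𝔓 x) →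
    ∀ 𝔓 : HeightOneSpectrum O, Ov Q 𝔓 → Sq1 𝔓 x

/-- Linear algebra: a subgroup on which the sum of the `e u` vanishes is disjoint from one of the
coordinate subgroups. -/
def S_LIN : Prop := ∀ (ι : Type) [Fintype ι] (Λ : AddSubgroup (ι → ZMod 2 × ZMod 2)),
  (∀ l ∈ Λ, ∑ i, (l i).1 * (l i).2 = 0) →
  ∃ J : Set ι, ∀ l ∈ Λ, (∀ i ∈ J, (l i).2 = 0) → (∀ i ∉ J, (l i).1 = 0) → l = 0

/-! ### Reciprocity -/

/-- The ternary form `c₂(x ^ 2 / α)` is isotropic over the completion at `v`. -/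
def IsoAt {k K L : Type} [Field k] [Field K] [Algebra k[X] K] [IsFractionRing k[X] K]
    [Field L] [Algebra K L] [Algebra k[X] L] {a b : k[X]} {θ : L} (h : IsCub K a b θ)
    (v : HeightOneSpectrum k[X]) (α : L) : Prop :=
  ∃ x : Fin 3 → v.adicCompletion K, x ≠ 0 ∧
    ∑ i : Fin 3, ∑ j : Fin 3, algebraMap K (v.adicCompletion K)
      (h.co 2 (θ ^ (i : ℕ) * θ ^ (j : ℕ) / α)) * x i * x j = 0

/-- The Hilbert symbol `(d, e)` at `P` is `-1` (for squarefree `d`, `e`). -/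
def HBad {k : Type} [Field k] (P d e : k[X]) : Prop :=
  (P ∣ d ∧ ¬ P ∣ e ∧ ∀ z, ¬ P ∣ z ^ 2 - e) ∨ (¬ P ∣ d ∧ P ∣ e ∧ ∀ z, ¬ P ∣ z ^ 2 - d) ∨
    ∃ d' e' : k[X], d = P * d' ∧ e = P * e' ∧ ∀ z, ¬ P ∣ z ^ 2 + d' * e'

/-- Quadratic reciprocity. -/
def S_HP : Prop := ∀ (k : Type) [Field k] [Finite k], (2 : k) ≠ 0 → ∀ d e : k[X], d.Monic →
  Squarefree d → Even d.natDegree → e ≠ 0 → Squarefree e →
  {P : k[X] | P.Monic ∧ Irreducible P ∧ HBad P d e}.Finite ∧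
    Even {P : k[X] | P.Monic ∧ Irreducible P ∧ HBad P d e}.ncard

/-- The tame symbol and isotropy. -/
def S_TAME : Prop := ∀ (k K : Type) [Field k] [Finite k] [Field K] [Algebra k[X] K]
  [IsFractionRing k[X] K], (2 : k) ≠ 0 → ∀ (P : k[X]) (v : HeightOneSpectrum k[X]),
  Irreducible P → v.asIdeal = Ideal.span {P} → ∀ d e : k[X], d ≠ 0 → e ≠ 0 → Squarefree d →
  Squarefree e →
  ((∃ x y z : v.adicCompletion K, ¬ (x = 0 ∧ y = 0 ∧ z = 0) ∧
    algebraMap K (v.adicCompletion K) (algebraMap k[X] K d) * x ^ 2 +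
      algebraMap K (v.adicCompletion K) (algebraMap k[X] K e) * y ^ 2 -
      algebraMap K (v.adicCompletion K) (algebraMap k[X] K (d * e)) * z ^ 2 = 0) ↔ ¬ HBad P d e)

/-- Diagonalisation over `K`, with the first coefficient a square at infinity. -/
def S_DIAG : Prop := ∀ (k K L : Type) [Field k] [Finite k] [Field K] [Algebra k[X] K]
  [IsFractionRing k[X] K] [Field L] [Algebra K L] [Algebra k[X] L] [IsScalarTower k[X] K L]
  (a b : k[X]) (θ : L) (N : ℕ), (6 : k) ≠ 0 → ∀ h : IsCub K a b θ, a.natDegree ≤ 4 * N →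
  b.natDegree ≤ 6 * N →
  Irreducible (X ^ 3 + C (a.coeff (4 * N)) * X + C (b.coeff (6 * N)) : k[X]) →
  ∀ α : L, α ≠ 0 → IsSquare (Algebra.norm K α) →
  ∃ d e : k[X], d.Monic ∧ Squarefree d ∧ Even d.natDegree ∧ e ≠ 0 ∧ Squarefree e ∧
    ∃ v : Fin 3 → L, LinearIndependent K v ∧ (∀ i j, i ≠ j → h.co 2 (v i * v j / α) = 0) ∧
      h.co 2 (v 0 ^ 2 / α) = algebraMap k[X] K d ∧ h.co 2 (v 1 ^ 2 / α) = algebraMap k[X] K e ∧
      h.co 2 (v 2 ^ 2 / α) = - algebraMap k[X] K (d * e)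

/-- Even valuations: the form is isotropic. -/
def S_UNIM : Prop := ∀ (k K L O : Type) [Field k] [Finite k] [Field K] [Algebra k[X] K]
  [IsFractionRing k[X] K]
  [Field L] [Algebra K L] [Algebra k[X] L] [IsScalarTower k[X] K L] [CommRing O]
  [IsDedekindDomain O] [Algebra O L] [IsFractionRing O L] [Algebra k[X] O]
  [IsScalarTower k[X] O L] [IsIntegralClosure O k[X] L] (a b : k[X]) (θ : L),
  (6 : k) ≠ 0 → ∀ h : IsCub K a b θ, Squarefree (dsc a b) →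
  ∀ (P : k[X]) (v : HeightOneSpectrum k[X]), Irreducible P → v.asIdeal = Ideal.span {P} →
  ∀ α : L, α ≠ 0 → (∀ 𝔓 : HeightOneSpectrum O, Ov P 𝔓 → Ev 𝔓 α) → IsoAt h v α

/-- Odd valuation at the prime of degree two over `Q`. -/
def S_RAM : Prop := ∀ (k K L O : Type) [Field k] [Finite k] [Field K] [Algebra k[X] K]
  [IsFractionRing k[X] K]
  [Field L] [Algebra K L] [Algebra k[X] L] [IsScalarTower k[X] K L] [CommRing O]
  [IsDedekindDomain O] [Algebra O L] [IsFractionRing O L] [Algebra k[X] O]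
  [IsScalarTower k[X] O L] [IsIntegralClosure O k[X] L] (a b : k[X]) (θ : L),
  (6 : k) ≠ 0 → ∀ h : IsCub K a b θ, Squarefree (dsc a b) →
  ∀ (Q : k[X]) (v : HeightOneSpectrum k[X]), Irreducible Q → v.asIdeal = Ideal.span {Q} →
  Q ∣ b → (∀ z : k[X], ¬ Q ∣ z ^ 2 + a) →
  ∀ (𝔓₁ 𝔮 : HeightOneSpectrum O), Ov Q 𝔓₁ → Ov Q 𝔮 → 𝔓₁.valuation L θ < 1 →
    𝔮.valuation L θ = 1 → ∀ α : L, α ≠ 0 → Ev 𝔓₁ α → ¬ Ev 𝔮 α →
    (IsoAt h v α ↔ Sq1 𝔮 (α * (algebraMap k[X] L Q * θ)))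

/-- The reciprocity law. -/
def S_REC : Prop := ∀ (k K L O : Type) [Field k] [Finite k] [Field K] [Algebra k[X] K]
  [IsFractionRing k[X] K]
  [Field L] [Algebra K L] [Algebra k[X] L] [IsScalarTower k[X] K L] [CommRing O]
  [IsDedekindDomain O] [Algebra O L] [IsFractionRing O L] [Algebra k[X] O]
  [IsScalarTower k[X] O L] [IsIntegralClosure O k[X] L] (a b : k[X]) (θ : L) (N : ℕ) (a₀ b₀ : k)
  (S : Finset k[X]) (s : k[X] → k[X]),
  (6 : k) ≠ 0 → IsCub K a b θ → Irreducible (X ^ 3 + C a₀ * X + C b₀ : k[X]) → GoodS S s →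
  Fam N a₀ b₀ S s a b →
  ∀ 𝔮 : k[X] → HeightOneSpectrum O, (∀ Q ∈ S, Ov Q (𝔮 Q) ∧ (𝔮 Q).valuation L θ = 1) →
  ∀ α : L, α ≠ 0 → IsSquare (Algebra.norm K α) →
    (∀ 𝔓 : HeightOneSpectrum O, (∀ Q ∈ S, 𝔓 ≠ 𝔮 Q) → Ev 𝔓 α) →
    Even (S.filter fun Q => ¬ Ev (𝔮 Q) α ∧ ¬ Sq1 (𝔮 Q) (α * (algebraMap k[X] L Q * θ))).card

/-! ### Local analysis of points -/

/-- The local condition at `v`: the class of `h(Θ)` comes from a point of `y ^ 2 = x ^ 3 + A x + B`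
over the completion. -/
def PolyLoc {k K : Type} [Field k] [Field K] [Algebra k[X] K] [IsFractionRing k[X] K]
    (v : HeightOneSpectrum k[X]) (A B : k[X]) (h : K[X]) : Prop :=
  (∃ g : (v.adicCompletion K)[X],
    X ^ 3 + C (algebraMap K (v.adicCompletion K) (algebraMap k[X] K A)) * X +
      C (algebraMap K (v.adicCompletion K) (algebraMap k[X] K B)) ∣
      h.map (algebraMap K (v.adicCompletion K)) - g ^ 2) ∨
  ∃ x y : v.adicCompletion K,
    y ^ 2 = x ^ 3 + algebraMap K (v.adicCompletion K) (algebraMap k[X] K A) * x +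
      algebraMap K (v.adicCompletion K) (algebraMap k[X] K B) ∧
    ∃ g : (v.adicCompletion K)[X],
    X ^ 3 + C (algebraMap K (v.adicCompletion K) (algebraMap k[X] K A)) * X +
      C (algebraMap K (v.adicCompletion K) (algebraMap k[X] K B)) ∣
      (C x - X) * h.map (algebraMap K (v.adicCompletion K)) - g ^ 2

/-- Primes not dividing `D`: even valuations. -/
def S_LOC1 : Prop := ∀ (k K L O : Type) [Field k] [Finite k] [Field K] [Algebra k[X] K]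
  [IsFractionRing k[X] K]
  [Field L] [Algebra K L] [Algebra k[X] L] [IsScalarTower k[X] K L] [CommRing O]
  [IsDedekindDomain O] [Algebra O L] [IsFractionRing O L] [Algebra k[X] O]
  [IsScalarTower k[X] O L] [IsIntegralClosure O k[X] L] (a b : k[X]) (θ : L),
  (6 : k) ≠ 0 → IsCub K a b θ → Squarefree (dsc a b) →
  ∀ (P : k[X]) (v : HeightOneSpectrum k[X]), Irreducible P → v.asIdeal = Ideal.span {P} →
  ∀ (D : k[X]) (h : K[X]), ¬ P ∣ D →
    aeval (algebraMap k[X] L D * θ) h ≠ 0 →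
    IsSquare (Algebra.norm K (aeval (algebraMap k[X] L D * θ) h)) →
    PolyLoc v (a * D ^ 2) (b * D ^ 3) h →
    ∀ 𝔓 : HeightOneSpectrum O, Ov P 𝔓 → Ev 𝔓 (aeval (algebraMap k[X] L D * θ) h)

/-- Primes `Q` dividing `D`. -/
def S_LOC2 : Prop := ∀ (k K L O : Type) [Field k] [Finite k] [Field K] [Algebra k[X] K]
  [IsFractionRing k[X] K]
  [Field L] [Algebra K L] [Algebra k[X] L] [IsScalarTower k[X] K L] [CommRing O]
  [IsDedekindDomain O] [Algebra O L] [IsFractionRing O L] [Algebra k[X] O]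
  [IsScalarTower k[X] O L] [IsIntegralClosure O k[X] L] (a b : k[X]) (θ : L),
  (6 : k) ≠ 0 → IsCub K a b θ → Squarefree (dsc a b) →
  ∀ (Q : k[X]) (v : HeightOneSpectrum k[X]), Irreducible Q → v.asIdeal = Ideal.span {Q} →
  Q ∣ b → (∀ z : k[X], ¬ Q ∣ z ^ 2 + a) →
  ∀ (D' : k[X]) (h : K[X]), ¬ Q ∣ D' →
    aeval (algebraMap k[X] L (Q * D') * θ) h ≠ 0 →
    IsSquare (Algebra.norm K (aeval (algebraMap k[X] L (Q * D') * θ) h)) →
    PolyLoc v (a * (Q * D') ^ 2) (b * (Q * D') ^ 3) h →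
    (∀ 𝔓 : HeightOneSpectrum O, Ov Q 𝔓 → 𝔓.valuation L θ = 1 →
      U0 𝔓 (algebraMap k[X] L Q * θ) (aeval (algebraMap k[X] L (Q * D') * θ) h)) ∧
    (∀ 𝔓 : HeightOneSpectrum O, Ov Q 𝔓 → 𝔓.valuation L θ < 1 →
      Ev 𝔓 (aeval (algebraMap k[X] L (Q * D') * θ) h))

end Pool.Agent.N874.PP
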