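import Pool.Agent.N874.PP.Sel

/-!
# The 2-Selmer group of a twist of a curve which is not bad: conclusion

Project PP (helper874).
-/

set_option autoImplicit false
set_option linter.all false

open Polynomial IsDedekindDomain WeierstrassCurve WeierstrassCurve.Affine
open Pool.Agent.TH115.GD
open scoped Classical

namespace Pool.Agent.N874.PP

section cubic

variable {k K : Type} [Field k] [Field K] [Algebra k[X] K] [IsFractionRing k[X] K]

noncomputable def FF (K : Type) [Field K] [Algebra k[X] K] (a b : k[X]) : K[X] :=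
  X ^ 3 + C (algebraMap k[X] K a) * X + C (algebraMap k[X] K b)

theorem FF_monic (a b : k[X]) : (FF K a b).Monic := by
  unfold FF
  monicity!

theorem FF_deg (a b : k[X]) : (FF K a b).natDegree = 3 := by
  unfold FF
  compute_degree!

theorem root_eq (a b : k[X]) : (AdjoinRoot.root (FF K a b)) ^ 3 +
    algebraMap k[X] (AdjoinRoot (FF K a b)) a * AdjoinRoot.root (FF K a b) +
    algebraMap k[X] (AdjoinRoot (FF K a b)) b = 0 := by
  have h := AdjoinRoot.eval₂_root (FF K a b)
  have e : ∀ c : k[X], algebraMap k[X] (AdjoinRoot (FF K a b)) c =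
      AdjoinRoot.of (FF K a b) (algebraMap k[X] K c) := fun c => by
    rw [IsScalarTower.algebraMap_apply k[X] K (AdjoinRoot (FF K a b))]
    rfl
  rw [e, e]
  have h2 : (FF K a b).eval₂ (AdjoinRoot.of (FF K a b)) (AdjoinRoot.root (FF K a b)) =
      AdjoinRoot.root (FF K a b) ^ 3 + AdjoinRoot.of (FF K a b) (algebraMap k[X] K a) *
        AdjoinRoot.root (FF K a b) + AdjoinRoot.of (FF K a b) (algebraMap k[X] K b) := by
    have gen : ∀ (R : Type) [CommRing R] (f : K →+* R) (r : R), (FF K a b).eval₂ f r =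
        r ^ 3 + f (algebraMap k[X] K a) * r + f (algebraMap k[X] K b) := by
      intro R _ f r
      simp [FF, eval₂_add, eval₂_mul, eval₂_pow, eval₂_X, eval₂_C]
    exact gen _ _ _
  rw [← h2]
  exact h

theorem sep_adjoinRoot (h6 : (6 : K) ≠ 0) (a b : k[X]) [hf : Fact (Irreducible (FF K a b))] :
    Algebra.IsSeparable K (AdjoinRoot (FF K a b)) := by
  have hs : (FF K a b).Separable := by
    rw [separable_iff_derivative_ne_zero hf.out]
    intro h0
    have h1 : (derivative (FF K a b)).coeff 2 = 3 := by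
      rw [coeff_derivative]
      simp [FF, coeff_X, coeff_C]
      norm_num
    rw [h0, coeff_zero] at h1
    apply h6
    rw [show (6 : K) = 2 * 3 by norm_num, ← h1, mul_zero]
  have hint : IsIntegral K (AdjoinRoot.root (FF K a b)) :=
    AdjoinRoot.isIntegral_root hf.out.ne_zero
  have hr : IsSeparable K (AdjoinRoot.root (FF K a b)) := by
    unfold IsSeparable
    refine hs.of_dvd (minpoly.dvd _ _ ?_)
    rw [aeval_def]
    exact AdjoinRoot.eval₂_root _
  haveI := (IntermediateField.isSeparable_adjoin_simple_iff_isSeparable K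
    (AdjoinRoot (FF K a b))).2 hr
  have htop : IntermediateField.adjoin K {AdjoinRoot.root (FF K a b)} = ⊤ := by
    rw [← IntermediateField.toSubalgebra_inj, IntermediateField.top_toSubalgebra,
      IntermediateField.adjoin_simple_toSubalgebra_of_isAlgebraic hint.isAlgebraic]
    exact AdjoinRoot.adjoinRoot_eq_top
  rw [htop] at this
  exact AlgEquiv.Algebra.isSeparable (IntermediateField.topEquiv (F := K)
    (E := AdjoinRoot (FF K a b)))

theorem isCub_adjoinRoot (a b : k[X]) [Fact (Irreducible (FF K a b))] :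
    IsCub K a b (AdjoinRoot.root (FF K a b)) where
  root := root_eq a b
  rank := by
    rw [(AdjoinRoot.powerBasis (FF_monic (K := K) a b).ne_zero).finrank,
      AdjoinRoot.powerBasis_dim, FF_deg]
  gen := by
    intro x
    obtain ⟨p, rfl⟩ := AdjoinRoot.mk_surjective x
    have h1 : AdjoinRoot.mk (FF K a b) p = AdjoinRoot.mk (FF K a b) (p %ₘ FF K a b) := by
      rw [AdjoinRoot.mk_eq_mk, modByMonic_eq_sub_mul_div p (FF K a b)]
      rw [sub_sub_cancel]
      exact dvd_mul_right _ _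
    have hd : (p %ₘ FF K a b).natDegree < 3 := by
      rw [← FF_deg (K := K) a b]
      exact natDegree_modByMonic_lt p (FF_monic a b) (by
        intro h
        have := FF_deg (K := K) a b
        rw [h] at this
        simp at this)
    refine ⟨(p %ₘ FF K a b).coeff 0, (p %ₘ FF K a b).coeff 1, (p %ₘ FF K a b).coeff 2, ?_⟩
    rw [h1]
    conv_lhs => rw [(p %ₘ FF K a b).as_sum_range_C_mul_X_pow' hd]
    simp [Finset.sum_range_succ, AdjoinRoot.algebraMap_eq]

end cubic

theorem sel (hCLS : S_CLS) (hEXQ : S_EXQ) (hNS : S_NS) (hLIN : S_LIN) (hREC : S_REC)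
    (hLOC1 : S_LOC1) (hLOC2 : S_LOC2) (hSD : S_SD) (hTTV : S_TTV) (hLB : S_LB) (hIRK : S_IRK)
    (hGB : S_GB) (hGN : S_GN) (hGT : S_GT) (hGL : S_GL)
    {k : Type} [Field k] [Finite k] (K : Type) [Field K] [Algebra k[X] K] [IsFractionRing k[X] K]
    {a b : k[X]} {N : ℕ} {a₀ b₀ : k} {S : Finset k[X]} {s : k[X] → k[X]}
    (h6 : (6 : k) ≠ 0)
    (hirr : Irreducible (X ^ 3 + C a₀ * X + C b₀ : k[X])) (hS : GoodS S s)
    (hF : Fam N a₀ b₀ S s a b) (hnb : ¬ LBad N S s a b) :
    ∃ J ⊆ S, SelZero (k := k) (sW (algebraMap k[X] K (a * (∏ Q ∈ J, Q) ^ 2))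
      (algebraMap k[X] K (b * (∏ Q ∈ J, Q) ^ 3))) := by
  have hirr' : Irreducible (X ^ 3 + C (a.coeff (4 * N)) * X + C (b.coeff (6 * N)) : k[X]) := by
    rw [hF.ca, hF.cb]
    exact hirr
  have hI := hIRK k K a b N hF.da hF.db hirr'
  haveI hfact : Fact (Irreducible (FF K a b)) := ⟨by
    have := hI 1 one_ne_zero
    rw [one_pow, one_pow, mul_one, mul_one] at this
    exact this⟩
  have hc := isCub_adjoinRoot (K := K) a b
  have h6K : (6 : K) ≠ 0 := by
    have : (6 : K) = algebraMap k[X] K (C 6) := by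
      rw [show (C (6 : k) : k[X]) = 6 from rfl, map_ofNat]
    rw [this, Ne, IsFractionRing.to_map_eq_zero_iff, C_eq_zero]
    exact h6
  haveI : FiniteDimensional K (AdjoinRoot (FF K a b)) :=
    (FF_monic (K := K) a b).finite_adjoinRoot
  haveI : Algebra.IsSeparable K (AdjoinRoot (FF K a b)) := sep_adjoinRoot h6K a b
  haveI : IsDedekindDomain (integralClosure k[X] (AdjoinRoot (FF K a b))) :=
    integralClosure.isDedekindDomain k[X] K (AdjoinRoot (FF K a b))
  haveI : IsFractionRing (integralClosure k[X] (AdjoinRoot (FF K a b))) (AdjoinRoot (FF K a b)) :=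
    integralClosure.isFractionRing_of_finite_extension K (AdjoinRoot (FF K a b))
  haveI : Module.Finite k[X] (integralClosure k[X] (AdjoinRoot (FF K a b))) :=
    IsIntegralClosure.finite k[X] K (AdjoinRoot (FF K a b)) _
  obtain ⟨J, hJ, hsel⟩ := sel_core (integralClosure k[X] (AdjoinRoot (FF K a b))) hCLS hEXQ hNS
    hLIN hREC hLOC1 hLOC2 hSD hTTV hLB h6 hc hirr hS hF hnb
  refine ⟨J, hJ, ?_⟩
  have hD0 : (∏ Q ∈ J, Q) ≠ 0 := by
    rw [Finset.prod_ne_zero_iff]
    exact fun Q hQ => (hS Q (hJ hQ)).2.1.ne_zero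
  generalize (∏ Q ∈ J, Q) = D at hD0 hsel ⊢
  intro f hf h2f hloc
  have hdisc : 4 * (algebraMap k[X] K (a * D ^ 2)) ^ 3 + 27 * (algebraMap k[X] K (b * D ^ 3)) ^ 2
      ≠ 0 := by
    have e : 4 * (algebraMap k[X] K (a * D ^ 2)) ^ 3 + 27 * (algebraMap k[X] K (b * D ^ 3)) ^ 2 =
        algebraMap k[X] K (D ^ 6 * dsc a b) := by
      simp only [dsc, map_mul, map_add, map_pow, map_ofNat]
      ring
    rw [e, Ne, IsFractionRing.to_map_eq_zero_iff]
    exact mul_ne_zero (pow_ne_zero _ hD0) hF.sq.ne_zero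
  have hirrD := hI D hD0
  obtain ⟨β, hβ⟩ := hGB K _ _ h6K hdisc hirrD f hf h2f
  obtain ⟨h, hh, hn⟩ := hGN K _ _ h6K hdisc hirrD f hf h2f β hβ
  have hRt : Rt (algebraMap k[X] K (a * D ^ 2)) (algebraMap k[X] K (b * D ^ 3))
      (algebraMap k[X] (AdjoinRoot (FF K a b)) D * AdjoinRoot.root (FF K a b)) := by
    unfold Rt
    rw [← IsScalarTower.algebraMap_apply k[X] K (AdjoinRoot (FF K a b)),
      ← IsScalarTower.algebraMap_apply k[X] K (AdjoinRoot (FF K a b))]
    have h1 := root_eq (K := K) a b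
    simp only [map_mul, map_pow]
    linear_combination (algebraMap k[X] (AdjoinRoot (FF K a b)) D) ^ 3 * h1
  have hn2 := hn (AdjoinRoot (FF K a b)) _ hRt hc.rank
  have hd2 : (4 * (a * D ^ 2) ^ 3 + 27 * (b * D ^ 3) ^ 2 : k[X]) ≠ 0 := by
    have e : (4 * (a * D ^ 2) ^ 3 + 27 * (b * D ^ 3) ^ 2 : k[X]) = D ^ 6 * dsc a b := by
      simp only [dsc]
      ring
    rw [e]
    exact mul_ne_zero (pow_ne_zero _ hD0) hF.sq.ne_zero
  have hsq := hsel h hn2.1 hn2.2 fun v => hGL k K _ _ h6 hd2 f hf h2f β h hβ hh v (hloc v)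
  exact hGT K _ _ h6K hdisc hirrD f hf h2f β h hβ hh _ _ hRt hc.rank hsq

end Pool.Agent.N874.PP
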