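import Pool.Agent.N874.PP.Cnt
import Pool.Agent.N711.PP.CQ
import Pool.Agent.N160.PP.BOX
import Pool.Agent.N530.PP.Orb
import Pool.Agent.N152.PP.Bad
import Pool.Agent.N490.PP.Fam
import Pool.Agent.N498.PP.Exs
import Pool.Agent.N498.PP.Lin
import Pool.Agent.N833.PP.Int
import Pool.Agent.N169.PP.SD
import Pool.Agent.N134.PP.TTV
import Pool.Agent.N277.PP.Red
import Pool.Agent.N530.PP.Wt
import Pool.Agent.N624.PP.NRM
import Pool.Agent.N279.PP.Chi
import Pool.Agent.N862.PP.Exq
import Pool.Agent.N539.PP.Cls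
import Pool.Agent.N862.PP.Par
import Pool.Agent.N862.PP.Ns
import Pool.Agent.N368.PP.Hp
import Pool.Agent.N352.PP.Tame
import Pool.Agent.N26.PP.Diag
import Pool.Agent.N765.PP.Unim
import Pool.Agent.N765.PP.Ram
import Pool.Agent.N141.PP.Rec
import Pool.Agent.N704.PP.Loc1
import Pool.Agent.N704.PP.Loc2
import Pool.Agent.N630.PP.GP
import Pool.Agent.N187.PP.GB
import Pool.Agent.N187.PP.GN
import Pool.Agent.N199.PP.GL
import Pool.Agent.N721.PP.GF
import Pool.Agent.N273.PP.Fin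
import Pool.Agent.N999.PP.Irk
import Pool.Agent.N457.PP.LB

/-!
# A positive proportion of all elliptic curves over `k(t)`

Project PP (helper874): all the parts together.
-/

set_option autoImplicit false
set_option linter.all false

open Polynomial IsDedekindDomain WeierstrassCurve WeierstrassCurve.Affine
open Pool.Agent.TH115.GD
open scoped Classical

namespace Pool.Agent.N874.PP


theorem final (k : Type) [Field k] [Finite k] (h6 : (6 : k) ≠ 0) (K : Type) [Field K]
    [Algebra k[X] K] [IsFractionRing k[X] K] :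
    ∃ c : ℝ, 0 < c ∧ ∃ N₀ : ℕ, ∀ N ≥ N₀, c * (Nat.card k : ℝ) ^ (10 * N) ≤
        ({p : k[X] × k[X] | Crv N p.1 p.2 ∧ Good K p}.ncard : ℝ) := by
  have hINT : S_INT := N833.PP.int
  have hEXQ : S_EXQ := N862.PP.exq hINT
  have hGP1 : S_GP1 := N630.PP.gp1
  have hGP2 : S_GP2 := N630.PP.gp2
  have hGP3 : S_GP3 := N630.PP.gp3
  have hGP4 : S_GP4 := N630.PP.gp4
  have hBAD : S_BAD := N152.PP.bad (N160.PP.box N711.PP.cq) N160.PP.box0 N530.PP.orb
  have hREC : S_REC := N141.PP.rec N368.PP.hp N352.PP.tame N26.PP.t_diag (N765.PP.unim hINT)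
    (N765.PP.ram hINT hEXQ) hEXQ
  have hLB : S_LB := N457.PP.lb hINT N277.PP.red_wt N530.PP.wtm N530.PP.nw N624.PP.nrm N279.PP.chi
  exact main N490.PP.Fam.fam hBAD N498.PP.exs N498.PP.irr N539.PP.cls hEXQ (N862.PP.ns hINT)
    N498.PP.lin hREC (N704.PP.loc1 hINT (N862.PP.par hINT)) (N704.PP.loc2 hINT (N862.PP.parq hINT))
    (N169.PP.sd hINT) (N134.PP.ttv hINT) hLB N999.PP.irk (N187.PP.gb hGP3 hGP4)
    (N187.PP.gn hGP3 hGP4) (N187.PP.gt hGP3 hGP4) (N199.PP.gl hGP1 hGP2 hGP3 hGP4) N721.PP.gf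
    N273.PP.s_fin k h6 K

/-- A finite group whose elements are divisible by two has odd order. -/
theorem odd_card {G : Type} [AddCommGroup G] [Finite G] (h : ∀ P : G, ∃ Q : G, P = (2 : ℕ) • Q) :
    Odd (Nat.card G) := by
  by_contra hodd
  rw [Nat.not_odd_iff_even, even_iff_two_dvd] at hodd
  haveI := Fact.mk Nat.prime_two
  obtain ⟨T, hT⟩ := exists_prime_addOrderOf_dvd_card' 2 hodd
  have hs : Function.Surjective (fun Q : G => (2 : ℕ) • Q) := fun P => by
    obtain ⟨Q, hQ⟩ := h P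
    exact ⟨Q, hQ.symm⟩
  have hi : Function.Injective (fun Q : G => (2 : ℕ) • Q) := Finite.injective_iff_surjective.2 hs
  have h1 : (2 : ℕ) • T = 0 := by
    rw [← hT]
    exact addOrderOf_nsmul_eq_zero T
  have h2 : T = 0 := hi (by simpa using h1)
  rw [h2, addOrderOf_zero] at hT
  omega

end Pool.Agent.N874.PP
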