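import Pool.Agent.N874.PP.Sel2
import Pool.Agent.N530.PP.Orb

/-!
# A positive proportion of all elliptic curves over `k(t)`: counting

Project PP (helper874): assembly.
-/

set_option autoImplicit false
set_option linter.all false

open Polynomial IsDedekindDomain WeierstrassCurve WeierstrassCurve.Affine
open Pool.Agent.TH115.GD
open scoped Classical

namespace Pool.Agent.N874.PP

/-- The minimal equations `y ^ 2 = x ^ 3 + a x + b` with `deg a ≤ 4 N`, `deg b ≤ 6 N` of elliptic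
curves with non-constant `j`-invariant. -/
structure Crv {k : Type} [Field k] (N : ℕ) (a b : k[X]) : Prop where
  da : a.natDegree ≤ 4 * N
  db : b.natDegree ≤ 6 * N
  disc : 4 * a ^ 3 + 27 * b ^ 2 ≠ 0
  min : ∀ Q : k[X], Irreducible Q → Q ^ 4 ∣ a → ¬ Q ^ 6 ∣ b
  nc : ∀ c d : k, (c ≠ 0 ∨ d ≠ 0) → C c * a ^ 3 ≠ C d * b ^ 2

section basic

variable {k : Type} [Field k]

theorem fam_crv (h6 : (6 : k) ≠ 0) {a b : k[X]} {N : ℕ} {a₀ b₀ : k} {S : Finset k[X]}
    {s : k[X] → k[X]} (hN : 1 ≤ N) (hirr : Irreducible (X ^ 3 + C a₀ * X + C b₀ : k[X]))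
    (hS : GoodS S s) (hF : Fam N a₀ b₀ S s a b) {J : Finset k[X]} (hJ : J ⊆ S) {M : ℕ}
    (hM : N + (∏ Q ∈ S, Q).natDegree ≤ M) :
    Crv M (a * (∏ Q ∈ J, Q) ^ 2) (b * (∏ Q ∈ J, Q) ^ 3) := by
  have hD0 : (∏ Q ∈ J, Q) ≠ 0 := by
    rw [Finset.prod_ne_zero_iff]
    exact fun Q hQ => (hS Q (hJ hQ)).2.1.ne_zero
  have hS0 : (∏ Q ∈ S, Q) ≠ 0 := by
    rw [Finset.prod_ne_zero_iff]
    exact fun Q hQ => (hS Q hQ).2.1.ne_zero
  have hDle : (∏ Q ∈ J, Q).natDegree ≤ (∏ Q ∈ S, Q).natDegree :=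
    natDegree_le_of_dvd (Finset.prod_dvd_prod_of_subset _ _ _ hJ) hS0
  have hDsq : Squarefree (∏ Q ∈ J, Q) := by
    refine Finset.squarefree_prod_of_pairwise_isCoprime ?_ ?_
    · intro P hP Q hQ hne
      have hP' := hS P (hJ hP)
      have hQ' := hS Q (hJ hQ)
      refine IsCoprime.isRelPrime ?_
      show IsCoprime P Q
      rw [hP'.2.1.coprime_iff_not_dvd]
      intro hd
      exact hne (eq_of_monic_of_associated hP'.1 hQ'.1 (hP'.2.1.associated_of_dvd hQ'.2.1 hd))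
    · intro Q hQ
      exact (hS Q (hJ hQ)).2.1.squarefree
  generalize (∏ Q ∈ J, Q) = D at hD0 hDle hDsq ⊢
  have hb₀ : b₀ ≠ 0 := by
    rintro rfl
    have e : (X ^ 3 + C a₀ * X + C 0 : k[X]) = X * (X ^ 2 + C a₀) := by
      rw [C_0]
      ring
    rw [e] at hirr
    rcases hirr.isUnit_or_isUnit rfl with h | h
    · exact not_isUnit_X h
    · have hd : (X ^ 2 + C a₀ : k[X]).natDegree = 2 := by compute_degree!
      rw [natDegree_eq_zero_of_isUnit h] at hd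
      omega
  have hbd : b.natDegree ≠ 0 := by
    intro h0
    have h1 : 6 * N ≤ b.natDegree := le_natDegree_of_ne_zero (by rw [hF.cb]; exact hb₀)
    omega
  have edsc : (4 * (a * D ^ 2) ^ 3 + 27 * (b * D ^ 3) ^ 2 : k[X]) = D ^ 6 * dsc a b := by
    simp only [dsc]
    ring
  refine ⟨?_, ?_, ?_, ?_, ?_⟩
  · refine natDegree_mul_le.trans ?_
    rw [natDegree_pow]
    have := hF.da
    omega
  · refine natDegree_mul_le.trans ?_
    rw [natDegree_pow]
    have := hF.db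
    omega
  · rw [edsc]
    exact mul_ne_zero (pow_ne_zero _ hD0) hF.sq.ne_zero
  · intro Q hQ h4 h6'
    have h12 : Q ^ 12 ∣ D ^ 6 * dsc a b := by
      rw [← edsc]
      refine dvd_add ?_ ?_
      · refine Dvd.dvd.mul_left ?_ _
        have := pow_dvd_pow_of_dvd h4 3
        rwa [← pow_mul] at this
      · refine Dvd.dvd.mul_left ?_ _
        have := pow_dvd_pow_of_dvd h6' 2
        rwa [← pow_mul] at this
    have hQp := hQ.prime
    have m1 : emultiplicity Q D ≤ 1 := by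
      by_contra hlt
      rw [not_le] at hlt
      have : Q ^ 2 ∣ D := by
        rw [pow_dvd_iff_le_emultiplicity]
        exact Order.add_one_le_of_lt hlt
      rw [sq] at this
      exact hQ.not_isUnit (hDsq Q this)
    have m2 : emultiplicity Q (dsc a b) ≤ 1 := by
      by_contra hlt
      rw [not_le] at hlt
      have : Q ^ 2 ∣ dsc a b := by
        rw [pow_dvd_iff_le_emultiplicity]
        exact Order.add_one_le_of_lt hlt
      rw [sq] at this
      exact hQ.not_isUnit (hF.sq Q this)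
    rw [pow_dvd_iff_le_emultiplicity, emultiplicity_mul hQp, emultiplicity_pow hQp] at h12
    have h7 : ((6 : ℕ) : ℕ∞) * emultiplicity Q D + emultiplicity Q (dsc a b) ≤ 6 * 1 + 1 := by
      gcongr
      exact le_refl _
    have := h12.trans h7
    norm_num at this
  · intro c d hcd h
    have h1 : C c * a ^ 3 = C d * b ^ 2 := by
      have h2 : D ^ 6 * (C c * a ^ 3) = D ^ 6 * (C d * b ^ 2) := by linear_combination h
      exact mul_left_cancel₀ (pow_ne_zero 6 hD0) h2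
    by_cases hc : c = 0
    · subst hc
      have hd : d ≠ 0 := by tauto
      rw [C_0, zero_mul] at h1
      have h2 : b = 0 := by
        have := (mul_eq_zero.1 h1.symm).resolve_left (C_ne_zero.2 hd)
        exact pow_eq_zero_iff two_ne_zero |>.1 this
      rw [h2] at hbd
      exact hbd natDegree_zero
    · have h2 : a ^ 3 = C (d / c) * b ^ 2 := by
        have h3 : C c * a ^ 3 = C c * (C (d / c) * b ^ 2) := by
          rw [h1, ← mul_assoc, ← C_mul, mul_div_cancel₀ _ hc]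
        exact mul_left_cancel₀ (C_ne_zero.2 hc) h3
      have h3 : b * b ∣ dsc a b := by
        refine ⟨4 * C (d / c) + 27, ?_⟩
        simp only [dsc]
        rw [h2]
        ring
      exact hbd (natDegree_eq_zero_of_isUnit (hF.sq b h3))

theorem twist_inj {a b a' b' D : k[X]} (hD : D ≠ 0) (h1 : a * D ^ 2 = a' * D ^ 2)
    (h2 : b * D ^ 3 = b' * D ^ 3) : (a, b) = (a', b') := by
  rw [Prod.mk.injEq]
  exact ⟨mul_right_cancel₀ (pow_ne_zero _ hD) h1, mul_right_cancel₀ (pow_ne_zero _ hD) h2⟩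

variable [Finite k]

theorem fin_box (A B : ℕ) : {p : k[X] × k[X] | p.1.natDegree ≤ A ∧ p.2.natDegree ≤ B}.Finite :=
  (N530.PP.fin_nd A).prod (N530.PP.fin_nd B)

theorem card_nd (n : ℕ) : {p : k[X] | p.natDegree ≤ n}.ncard = Nat.card k ^ (n + 1) := by
  rw [← N530.PP.card_lt (k := k) (n + 1)]
  have e : {p : k[X] | p.natDegree ≤ n} = ((degreeLT k (n + 1) : Submodule k k[X]) : Set k[X]) := by
    ext p
    constructor
    · intro hp
      rw [SetLike.mem_coe, mem_degreeLT]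
      refine lt_of_le_of_lt (degree_le_of_natDegree_le hp) ?_
      exact_mod_cast Nat.lt_succ_self n
    · intro hp
      exact N530.PP.nd_of_mem hp
  rw [e, ← Nat.card_coe_set_eq]
  rfl

theorem card_box (A B : ℕ) : {p : k[X] × k[X] | p.1.natDegree ≤ A ∧ p.2.natDegree ≤ B}.ncard =
    Nat.card k ^ (A + B + 2) := by
  have e : {p : k[X] × k[X] | p.1.natDegree ≤ A ∧ p.2.natDegree ≤ B} =
      {p : k[X] | p.natDegree ≤ A} ×ˢ {p : k[X] | p.natDegree ≤ B} := rfl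
  rw [e, Set.ncard_prod, card_nd, card_nd, ← pow_add]
  congr 1
  omega

theorem crv_fin (N : ℕ) : {p : k[X] × k[X] | Crv N p.1 p.2}.Finite :=
  (fin_box (4 * N) (6 * N)).subset fun p hp => ⟨hp.da, hp.db⟩

theorem crv_card (N : ℕ) : {p : k[X] × k[X] | Crv N p.1 p.2}.ncard ≤ Nat.card k ^ (10 * N + 2) := by
  refine (Set.ncard_le_ncard (fun p hp => ?_) (fin_box (4 * N) (6 * N))).trans ?_
  · exact ⟨Crv.da hp, Crv.db hp⟩
  · rw [card_box]
    refine le_of_eq ?_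
    congr 1
    omega

theorem lbad_fin (N : ℕ) (S : Finset k[X]) (s : k[X] → k[X]) :
    {p : k[X] × k[X] | LBad N S s p.1 p.2}.Finite := by
  have h : {p : k[X] × k[X] | LBad N S s p.1 p.2} ⊆
      ⋃ m ∈ Finset.range (N + 1), (fun B : Tup k[X] => (chA B, chB B)) '' {B | Xset N m S s B} := by
    rintro p ⟨m, hm, B, hB, -, h1, h2⟩
    simp only [Set.mem_iUnion]
    refine ⟨m, Finset.mem_range.2 (by omega), B, hB, ?_⟩
    exact Prod.ext h1 h2
  refine Set.Finite.subset ?_ h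
  refine Set.Finite.biUnion (Finset.finite_toSet _) fun m hm => ?_
  have hm' : m ≤ N := by
    have := Finset.mem_range.1 hm
    omega
  exact (N530.PP.fin_X S s N m hm').image _

/-- Many curves of the family are not bad. -/
theorem good_card (hFAM : S_FAM) (hBAD : S_BAD) (hEXS : S_EXS) (h6 : (6 : k) ≠ 0) {a₀ b₀ : k}
    (hirr : Irreducible (X ^ 3 + C a₀ * X + C b₀ : k[X])) :
    ∃ (S : Finset k[X]) (s : k[X] → k[X]) (c : ℝ), GoodS S s ∧ 0 < c ∧ ∃ N₀ : ℕ, ∀ N ≥ N₀,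
      c * (Nat.card k : ℝ) ^ (10 * N) ≤
        ({p : k[X] × k[X] | Fam N a₀ b₀ S s p.1 p.2 ∧ ¬ LBad N S s p.1 p.2}.ncard : ℝ) := by
  obtain ⟨c, hc, hfam⟩ := hFAM k h6 a₀ b₀ hirr
  obtain ⟨r, hr⟩ : ∃ r : ℕ, 4 * (Nat.card k : ℝ) ^ 5 / c < 2 ^ r :=
    pow_unbounded_of_one_lt _ (by norm_num)
  obtain ⟨S, s, hS, hcard⟩ := hEXS k h6 r
  obtain ⟨N₁, h1⟩ := hfam S s hS
  obtain ⟨N₂, h2⟩ := hBAD k h6 S s hS
  have hq : (0 : ℝ) < Nat.card k := by exact_mod_cast Nat.card_pos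
  set P : ℕ := ∏ Q ∈ S, nm Q ^ 2 with hP
  have hP0 : (0 : ℝ) < P := by
    have : 0 < P := Finset.prod_pos fun Q _ => pow_pos (pow_pos Nat.card_pos _) _
    exact_mod_cast this
  refine ⟨S, s, c / (2 * P), hS, by positivity, max N₁ N₂, fun N hN => ?_⟩
  have hF := h1 N ((le_max_left _ _).trans hN)
  have hB := h2 N ((le_max_right _ _).trans hN)
  have hd := Set.le_ncard_diff {p : k[X] × k[X] | LBad N S s p.1 p.2}
    {p : k[X] × k[X] | Fam N a₀ b₀ S s p.1 p.2} (lbad_fin N S s)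
  have e : {p : k[X] × k[X] | Fam N a₀ b₀ S s p.1 p.2} \ {p : k[X] × k[X] | LBad N S s p.1 p.2} =
      {p : k[X] × k[X] | Fam N a₀ b₀ S s p.1 p.2 ∧ ¬ LBad N S s p.1 p.2} := rfl
  rw [e] at hd
  set F : ℕ := {p : k[X] × k[X] | Fam N a₀ b₀ S s p.1 p.2}.ncard
  set Bd : ℕ := {p : k[X] × k[X] | LBad N S s p.1 p.2}.ncard
  set G : ℕ := {p : k[X] × k[X] | Fam N a₀ b₀ S s p.1 p.2 ∧ ¬ LBad N S s p.1 p.2}.ncard
  have hd' : (F : ℝ) ≤ Bd + G := by
    have : F ≤ Bd + G := by omega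
    exact_mod_cast this
  have hB' : (2 : ℝ) ^ r * P * Bd ≤ 2 * (Nat.card k : ℝ) ^ (10 * N + 5) := by
    rw [hcard] at hB
    exact_mod_cast hB
  have hF' : c * (Nat.card k : ℝ) ^ (10 * N) ≤ P * F := hF
  rw [div_lt_iff₀ hc] at hr
  have hPB : P * (Bd : ℝ) ≤ c / 2 * (Nat.card k : ℝ) ^ (10 * N) := by
    have h2r : (0 : ℝ) < 2 ^ r := by positivity
    rw [← mul_le_mul_iff_right₀ h2r]
    calc 2 ^ r * (P * (Bd : ℝ)) = 2 ^ r * P * Bd := by ring
      _ ≤ 2 * (Nat.card k : ℝ) ^ (10 * N + 5) := hB'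
      _ = (4 * (Nat.card k : ℝ) ^ 5) * ((Nat.card k : ℝ) ^ (10 * N) / 2) := by ring
      _ ≤ (2 ^ r * c) * ((Nat.card k : ℝ) ^ (10 * N) / 2) := by gcongr
      _ = 2 ^ r * (c / 2 * (Nat.card k : ℝ) ^ (10 * N)) := by ring
  have hPG : c / 2 * (Nat.card k : ℝ) ^ (10 * N) ≤ P * G := by
    have : (P : ℝ) * F ≤ P * Bd + P * G := by
      rw [← mul_add]
      exact mul_le_mul_of_nonneg_left hd' hP0.le
    linarith
  calc c / (2 * P) * (Nat.card k : ℝ) ^ (10 * N) = c / 2 * (Nat.card k : ℝ) ^ (10 * N) / P := by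
        field_simp
    _ ≤ P * G / P := by gcongr
    _ = G := by field_simp

end basic

/-- Counting with fibres of size at most `2 ^ r`. -/
theorem card_fib {α β γ : Type} [DecidableEq γ] {G : Set α} {H : Set β} (hG : G.Finite)
    (hH : H.Finite) (S : Finset γ) (f : Finset γ → α → β)
    (hex : ∀ x ∈ G, ∃ J ⊆ S, f J x ∈ H) (hinj : ∀ J ⊆ S, ∀ x ∈ G, ∀ y ∈ G, f J x = f J y → x = y) :
    G.ncard ≤ 2 ^ S.card * H.ncard := by
  choose! J hJ hf using hex
  have hT : ((fun x => (J x, f (J x) x)) '' G) ⊆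
      ((S.powerset : Set (Finset γ)) ×ˢ H) := by
    rintro _ ⟨x, hx, rfl⟩
    refine ⟨?_, hf x hx⟩
    rw [Finset.mem_coe, Finset.mem_powerset]
    exact hJ x hx
  have hi : Set.InjOn (fun x => (J x, f (J x) x)) G := by
    intro x hx y hy h
    simp only [Prod.mk.injEq] at h
    refine hinj (J x) (hJ x hx) x hx y hy ?_
    rw [h.2, h.1]
  rw [← Set.ncard_image_of_injOn hi]
  refine (Set.ncard_le_ncard hT ((Finset.finite_toSet _).prod hH)).trans ?_
  rw [Set.ncard_prod, Set.ncard_coe_finset, Finset.card_powerset]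

/-- The points are divisible by two, there are finitely many of them, and the 2-primary part of the
Tate-Shafarevich group is zero. -/
def Good {k : Type} [Field k] (K : Type) [Field K] [Algebra k[X] K] [IsFractionRing k[X] K]
    (p : k[X] × k[X]) : Prop :=
  (∀ P : Pt (sW (algebraMap k[X] K p.1) (algebraMap k[X] K p.2)) K,
    ∃ Q : Pt (sW (algebraMap k[X] K p.1) (algebraMap k[X] K p.2)) K, P = (2 : ℕ) • Q) ∧
  Finite (Pt (sW (algebraMap k[X] K p.1) (algebraMap k[X] K p.2)) K) ∧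
  ShaTwo k (sW (algebraMap k[X] K p.1) (algebraMap k[X] K p.2))

/-- The main theorem from the parts. -/
theorem main (hFAM : S_FAM) (hBAD : S_BAD) (hEXS : S_EXS) (hIRR : S_IRR)
    (hCLS : S_CLS) (hEXQ : S_EXQ) (hNS : S_NS) (hLIN : S_LIN) (hREC : S_REC)
    (hLOC1 : S_LOC1) (hLOC2 : S_LOC2) (hSD : S_SD) (hTTV : S_TTV) (hLB : S_LB) (hIRK : S_IRK)
    (hGB : S_GB) (hGN : S_GN) (hGT : S_GT) (hGL : S_GL) (hGF : S_GF) (hFIN : S_FIN)
    (k : Type) [Field k] [Finite k] (h6 : (6 : k) ≠ 0) (K : Type) [Field K] [Algebra k[X] K]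
    [IsFractionRing k[X] K] :
    ∃ c : ℝ, 0 < c ∧ ∃ N₀ : ℕ, ∀ N ≥ N₀, c * (Nat.card k : ℝ) ^ (10 * N) ≤
        ({p : k[X] × k[X] | Crv N p.1 p.2 ∧ Good K p}.ncard : ℝ) := by
  obtain ⟨a₀, b₀, hirr⟩ := hIRR k h6
  obtain ⟨S, s, c, hS, hc, N₀, hN₀⟩ := good_card hFAM hBAD hEXS h6 hirr
  set e : ℕ := (∏ Q ∈ S, Q).natDegree with he
  have hq : (0 : ℝ) < Nat.card k := by exact_mod_cast Nat.card_pos
  refine ⟨c / (2 ^ S.card * (Nat.card k : ℝ) ^ (10 * e)), by positivity, N₀ + 1 + e,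
    fun M hM => ?_⟩
  obtain ⟨N, rfl⟩ : ∃ N, M = N + e := ⟨M - e, by omega⟩
  have hN := hN₀ N (by omega)
  set H := {p : k[X] × k[X] | Crv (N + e) p.1 p.2 ∧ Good K p} with hH
  set G := {p : k[X] × k[X] | Fam N a₀ b₀ S s p.1 p.2 ∧ ¬ LBad N S s p.1 p.2} with hG
  have hHf : H.Finite := (crv_fin (N + e)).subset fun p hp => hp.1
  have hGf : G.Finite := (fin_box (4 * N) (6 * N)).subset fun p hp => ⟨hp.1.da, hp.1.db⟩
  have hcard := card_fib hGf hHf S
    (fun J p => (p.1 * (∏ Q ∈ J, Q) ^ 2, p.2 * (∏ Q ∈ J, Q) ^ 3)) (by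
      intro p hp
      obtain ⟨J, hJ, hsel⟩ := sel hCLS hEXQ hNS hLIN hREC hLOC1 hLOC2 hSD hTTV hLB hIRK hGB hGN
        hGT hGL K h6 hirr hS hp.1 hp.2
      refine ⟨J, hJ, ?_⟩
      have hcrv := fam_crv h6 (by omega) hirr hS hp.1 hJ (le_refl (N + e))
      have hdK : 4 * (algebraMap k[X] K (p.1 * (∏ Q ∈ J, Q) ^ 2)) ^ 3 +
          27 * (algebraMap k[X] K (p.2 * (∏ Q ∈ J, Q) ^ 3)) ^ 2 ≠ 0 := by
        have h1 := hcrv.disc
        intro h0
        apply h1
        rw [← IsFractionRing.to_map_eq_zero_iff (K := K)]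
        simpa only [map_add, map_mul, map_pow, map_ofNat] using h0
      obtain ⟨h2, h3⟩ := hGF k K _ _ h6 hdK hsel
      exact ⟨hcrv, h2, hFIN k K _ _ h6 hcrv.disc h2, h3⟩) (by
      intro J hJ x hx y hy hxy
      have hD0 : (∏ Q ∈ J, Q) ≠ 0 := by
        rw [Finset.prod_ne_zero_iff]
        exact fun Q hQ => (hS Q (hJ hQ)).2.1.ne_zero
      rw [Prod.mk.injEq] at hxy
      exact twist_inj hD0 hxy.1 hxy.2)
  have hcard' : (G.ncard : ℝ) ≤ 2 ^ S.card * H.ncard := by exact_mod_cast hcard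
  calc c / (2 ^ S.card * (Nat.card k : ℝ) ^ (10 * e)) * (Nat.card k : ℝ) ^ (10 * (N + e))
      = c * (Nat.card k : ℝ) ^ (10 * N) / 2 ^ S.card := by
        rw [show 10 * (N + e) = 10 * N + 10 * e by ring, pow_add]
        field_simp
    _ ≤ (G.ncard : ℝ) / 2 ^ S.card := by gcongr
    _ ≤ (2 ^ S.card * H.ncard) / 2 ^ S.card := by gcongr
    _ = H.ncard := by field_simp

end Pool.Agent.N874.PP
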