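import Mathlib

/-!
# A positive proportion of all elliptic curves over `k(t)`: definitions and statements of the parts

Project PP (helper874). Mathlib only. The theorems `S_..` are the parts.
-/

set_option autoImplicit false
set_option linter.all false

open Polynomial IsDedekindDomain
open scoped Classical

namespace Pool.Agent.N874.PP

/-! ### Self-adjoint operators on the ternary form `2 x z + y ^ 2` (binary quartic forms) -/

/-- The symmetric matrix `(x, y, c; y, -2 c, z; c, z, w)`. -/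
@[ext] structure Tup (R : Type) where
  x : R
  y : R
  c : R
  z : R
  w : R

section tup

variable {R : Type} [CommRing R]

/-- `T = (c, z, w; y, -2 c, z; x, y, c)` has the characteristic polynomial `X ^ 3 + chA X + chB`. -/
noncomputable def chA (B : Tup R) : R := -3 * B.c ^ 2 - 2 * B.y * B.z - B.x * B.w

noncomputable def chB (B : Tup R) : R :=
  2 * B.c ^ 3 + 2 * B.c * B.y * B.z - B.x * B.z ^ 2 - B.w * B.y ^ 2 - 2 * B.c * B.x * B.w

/-- The value of `B` at the isotropic vector `(-2 u ^ 2, 2 u, 1)`. -/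
noncomputable def gq (B : Tup R) (u : R) : R :=
  4 * B.x * u ^ 4 - 8 * B.y * u ^ 3 - 12 * B.c * u ^ 2 + 4 * B.z * u + B.w

/-- Change of basis `e₂ - 2 u e₁`, `e₃ + 2 u e₂ - 2 u ^ 2 e₁`. -/
noncomputable def tau (u : R) (B : Tup R) : Tup R :=
  ⟨B.x, B.y - 2 * u * B.x, B.c + 2 * u * B.y - 2 * u ^ 2 * B.x,
    B.z - 6 * u * B.c - 6 * u ^ 2 * B.y + 4 * u ^ 3 * B.x, gq B u⟩

/-- Two different zeros on the projective line. -/
def Two (B : Tup R) : Prop :=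
  (∃ u u' : R, u ≠ u' ∧ gq B u = 0 ∧ gq B u' = 0) ∨ (B.x = 0 ∧ ∃ u : R, gq B u = 0)

end tup

section fam

variable {k : Type} [Field k]

/-- `4 a ^ 3 + 27 b ^ 2` -/
noncomputable def dsc (a b : k[X]) : k[X] := 4 * a ^ 3 + 27 * b ^ 2

/-- The same as `Two`, modulo `Q`. -/
def TT (Q : k[X]) (B : Tup k[X]) : Prop :=
  (∃ u u' : k[X], ¬ Q ∣ u - u' ∧ Q ∣ gq B u ∧ Q ∣ gq B u') ∨ (Q ∣ B.x ∧ ∃ u : k[X], Q ∣ gq B u)

def InBox (N m : ℕ) (B : Tup k[X]) : Prop :=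
  B.x.natDegree + 2 * m ≤ 2 * N ∧ B.y.natDegree + m ≤ 2 * N ∧ B.c.natDegree ≤ 2 * N ∧
    B.z.natDegree ≤ 2 * N + m ∧ B.w.natDegree ≤ 2 * N + 2 * m

/-- The set `S` of primes and the residues `s Q` with `- s Q` not a square modulo `Q`. -/
def GoodS (S : Finset k[X]) (s : k[X] → k[X]) : Prop :=
  ∀ Q ∈ S, Q.Monic ∧ Irreducible Q ∧ ∀ z : k[X], ¬ Q ∣ z ^ 2 + s Q

/-- The family: prescribed irreducible reduction at infinity, reduction `X (X ^ 2 + s Q)` at the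
`Q` in `S`, squarefree discriminant. -/
structure Fam (N : ℕ) (a₀ b₀ : k) (S : Finset k[X]) (s : k[X] → k[X]) (a b : k[X]) : Prop where
  da : a.natDegree ≤ 4 * N
  db : b.natDegree ≤ 6 * N
  ca : a.coeff (4 * N) = a₀
  cb : b.coeff (6 * N) = b₀
  ra : ∀ Q ∈ S, Q ∣ a - s Q
  rb : ∀ Q ∈ S, Q ∣ b
  sq : Squarefree (dsc a b)

/-- The tuples over which we count. -/
structure Xset (N m : ℕ) (S : Finset k[X]) (s : k[X] → k[X]) (B : Tup k[X]) : Prop where
  box : InBox N m B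
  tt : ∀ Q ∈ S, TT Q B
  ra : ∀ Q ∈ S, Q ∣ chA B - s Q
  rb : ∀ Q ∈ S, Q ∣ chB B

/-- The curve `(a, b)` is bad: it comes from a tuple. -/
def LBad (N : ℕ) (S : Finset k[X]) (s : k[X] → k[X]) (a b : k[X]) : Prop :=
  ∃ m ≤ N, ∃ B : Tup k[X], Xset N m S s B ∧ B.x ≠ 0 ∧ chA B = a ∧ chB B = b

end fam

/-! ### Counting -/

/-- Over a finite field: tuples with given characteristic polynomial and two zeros. -/
def S_CQ : Prop := ∀ (F : Type) [Field F] [Finite F], (6 : F) ≠ 0 → ∀ a b : F,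
  4 * a ^ 3 + 27 * b ^ 2 ≠ 0 →
  2 * Nat.card {B : Tup F // chA B = a ∧ chB B = b ∧ Two B} ≤ Nat.card F ^ 3

/-- The norm of `Q`. -/
noncomputable def nm {k : Type} [Field k] (Q : k[X]) : ℕ := Nat.card k ^ Q.natDegree

def S_BOX : Prop := ∀ (k : Type) [Field k] [Finite k], (6 : k) ≠ 0 → ∀ (S : Finset k[X])
  (s : k[X] → k[X]), GoodS S s → ∀ N m : ℕ, m ≤ N → (∏ Q ∈ S, Q).natDegree + 2 * m ≤ 2 * N →
  2 ^ S.card * (∏ Q ∈ S, nm Q ^ 2) * {B : Tup k[X] | Xset N m S s B}.ncard ≤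
    Nat.card k ^ (10 * N + 5)

/-- The trivial bound. -/
def S_BOX0 : Prop := ∀ (k : Type) [Field k] [Finite k] (S : Finset k[X])
  (s : k[X] → k[X]) (N m : ℕ), m ≤ N →
  {B : Tup k[X] | Xset N m S s B}.Finite ∧
  {B : Tup k[X] | Xset N m S s B}.ncard ≤ Nat.card k ^ (10 * N + 5)

/-- Every pair `(a, b)` comes from at least `q ^ (m + 1)` tuples (use `tau`). -/
def S_ORB : Prop := ∀ (k : Type) [Field k] [Finite k], (6 : k) ≠ 0 → ∀ (S : Finset k[X])
  (s : k[X] → k[X]) (N m : ℕ), m ≤ N →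
  {p : k[X] × k[X] | ∃ B : Tup k[X], Xset N m S s B ∧ B.x ≠ 0 ∧ chA B = p.1 ∧ chB B = p.2}.ncard *
    Nat.card k ^ (m + 1) ≤ {B : Tup k[X] | Xset N m S s B}.ncard

/-- Few bad curves. -/
def S_BAD : Prop := ∀ (k : Type) [Field k] [Finite k], (6 : k) ≠ 0 → ∀ (S : Finset k[X])
  (s : k[X] → k[X]), GoodS S s → ∃ N₀ : ℕ, ∀ N ≥ N₀,
  2 ^ S.card * (∏ Q ∈ S, nm Q ^ 2) * {p : k[X] × k[X] | LBad N S s p.1 p.2}.ncard ≤
    2 * Nat.card k ^ (10 * N + 5)

/-- Many curves in the family. -/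
def S_FAM : Prop := ∀ (k : Type) [Field k] [Finite k], (6 : k) ≠ 0 → ∀ a₀ b₀ : k,
  Irreducible (X ^ 3 + C a₀ * X + C b₀ : k[X]) →
  ∃ c : ℝ, 0 < c ∧ ∀ (S : Finset k[X]) (s : k[X] → k[X]), GoodS S s → ∃ N₀ : ℕ, ∀ N ≥ N₀,
    c * (Nat.card k : ℝ) ^ (10 * N) ≤ ((∏ Q ∈ S, nm Q ^ 2 : ℕ) : ℝ) *
      ({p : k[X] × k[X] | Fam N a₀ b₀ S s p.1 p.2}.ncard : ℝ)

def S_EXS : Prop := ∀ (k : Type) [Field k] [Finite k], (6 : k) ≠ 0 → ∀ r : ℕ,
  ∃ (S : Finset k[X]) (s : k[X] → k[X]), GoodS S s ∧ S.card = r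

def S_IRR : Prop := ∀ (k : Type) [Field k] [Finite k], (6 : k) ≠ 0 →
  ∃ a₀ b₀ : k, Irreducible (X ^ 3 + C a₀ * X + C b₀ : k[X])

/-! ### The cubic field -/

section cub

variable {k L : Type} [Field k] [Field L] [Algebra k[X] L]

/-- `L = K(θ)` is of degree three over `K` and `θ ^ 3 + a θ + b = 0`. -/
structure IsCub (K : Type) [Field K] [Algebra K L] (a b : k[X]) (θ : L) : Prop where
  root : θ ^ 3 + algebraMap k[X] L a * θ + algebraMap k[X] L b = 0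
  rank : Module.finrank K L = 3
  gen : ∀ x : L, ∃ r s t : K,
    x = algebraMap K L r + algebraMap K L s * θ + algebraMap K L t * θ ^ 2

/-- `1`, `θ`, `θ ^ 2` -/
def vec (θ : L) : Fin 3 → L := ![1, θ, θ ^ 2]

variable {K : Type} [Field K] [Algebra K L] {a b : k[X]} {θ : L}

theorem IsCub.span (h : IsCub K a b θ) : ⊤ ≤ Submodule.span K (Set.range (vec θ)) := by
  intro x _
  obtain ⟨r, s, t, rfl⟩ := h.gen x
  refine Submodule.add_mem _ (Submodule.add_mem _ ?_ ?_) ?_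
  · have : algebraMap K L r = r • vec θ 0 := by simp [vec, Algebra.smul_def]
    rw [this]
    exact Submodule.smul_mem _ _ (Submodule.subset_span ⟨0, rfl⟩)
  · have : algebraMap K L s * θ = s • vec θ 1 := by simp [vec, Algebra.smul_def]
    rw [this]
    exact Submodule.smul_mem _ _ (Submodule.subset_span ⟨1, rfl⟩)
  · have : algebraMap K L t * θ ^ 2 = t • vec θ 2 := by simp [vec, Algebra.smul_def]
    rw [this]
    exact Submodule.smul_mem _ _ (Submodule.subset_span ⟨2, rfl⟩)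

/-- The basis `1`, `θ`, `θ ^ 2`. -/
noncomputable def IsCub.basis (h : IsCub K a b θ) : Module.Basis (Fin 3) K L :=
  basisOfTopLeSpanOfCardEqFinrank (vec θ) h.span (by rw [h.rank]; rfl)

theorem IsCub.basis_apply (h : IsCub K a b θ) (i : Fin 3) : h.basis i = vec θ i := by
  rw [IsCub.basis, coe_basisOfTopLeSpanOfCardEqFinrank]

/-- The coordinates with respect to `1`, `θ`, `θ ^ 2`. -/
noncomputable def IsCub.co (h : IsCub K a b θ) (i : Fin 3) : L →ₗ[K] K := h.basis.coord i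

end cub

section primes

variable {k L : Type} [Field k] [Field L] {O : Type} [CommRing O] [IsDedekindDomain O] [Algebra O L]
  [IsFractionRing O L] [Algebra k[X] O]

/-- The prime `𝔓` divides `Q`. -/
def Ov (Q : k[X]) (𝔓 : HeightOneSpectrum O) : Prop := algebraMap k[X] O Q ∈ 𝔓.asIdeal

/-- The valuation of `x` at `𝔓` is even. -/
def Ev (𝔓 : HeightOneSpectrum O) (x : L) : Prop :=
  ∃ y : L, 𝔓.valuation L x = 𝔓.valuation L y ^ 2

/-- `x` is a square at `𝔓` (up to the factor `1 + ...`). -/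
def Sq1 (𝔓 : HeightOneSpectrum O) (x : L) : Prop :=
  ∃ s : L, 𝔓.valuation L (x - s ^ 2) < 𝔓.valuation L x

/-- The class of `x` at `𝔓` is trivial or that of `ϖ`, respectively. -/
def U0 (𝔓 : HeightOneSpectrum O) (ϖ x : L) : Prop :=
  (Ev 𝔓 x → Sq1 𝔓 x) ∧ (¬ Ev 𝔓 x → Sq1 𝔓 (x * ϖ))

end primes

/-- The strict Selmer classes. -/
structure Strict {k L : Type} [Field k] [Field L] (O : Type) [CommRing O] [IsDedekindDomain O]
    [Algebra O L] [IsFractionRing O L] [Algebra k[X] O] (K : Type) [Field K] [Algebra K L]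
    (S : Finset k[X]) (α : L) : Prop where
  ne : α ≠ 0
  nsq : IsSquare (Algebra.norm K α)
  ev : ∀ 𝔓 : HeightOneSpectrum O, Ev 𝔓 α
  sq : ∀ Q ∈ S, ∀ 𝔓 : HeightOneSpectrum O, Ov Q 𝔓 → Sq1 𝔓 α

end Pool.Agent.N874.PP
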